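import Mathlib

/-!
# No cutoff from a typical start under the relaxation-time condition

The chain: the random walk on the hypercube `{0,1}^N` in which every coordinate flips at rate `1/2`,
with additional jumps at rate `ρ = 4 / log N` to a uniformly chosen state. It is reversible, all its
states are equivalent under translations, its spectral gap is `1 + ρ`, and
`P_x(X_t ∈ ·) - π = exp (- ρ t) (P⁰_x(X_t ∈ ·) - π)`, where `P⁰` is the walk without the additional
jumps. The walk `P⁰` is far from equilibrium up to the time `(log N) / 4` (Chebyshev's inequality for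
the number of ones), hence `τ ≥ (log N) / 4 → ∞`, while `τ_2 < 1`. But at the time `(1 - ε) τ` the
total variation distance is at most `exp (- ρ (1 - ε) τ) ≤ exp (- (1 - ε)) ≤ 1 - ε` for `ε ≤ 2/5`.
(The additional rare jumps to equilibrium are the device of I. Pak's example for worst-case starts.)
-/

set_option autoImplicit false

namespace Pool.Agent.Results.MP_d1aba8_pr.NoTypicalCutoff

open Filter Topology Matrix

section Defs

variable {S : Type} [Fintype S] [DecidableEq S]

/-- `Q` is the generator (the matrix of the jump rates) of a continuous-time Markov chain on `S`. -/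
def IsGenerator (Q : Matrix S S ℝ) : Prop :=
  (∀ x y, x ≠ y → 0 ≤ Q x y) ∧ ∀ x, ∑ y, Q x y = 0

/-- Any two states are joined by a sequence of jumps of positive rate. -/
def Irreducible (Q : Matrix S S ℝ) : Prop :=
  ∀ x y, Relation.ReflTransGen (fun a b => a ≠ b ∧ 0 < Q a b) x y

/-- The law `y ↦ P_x(X_t = y)` of the chain with generator `Q`, i.e. the row `x` of `exp (t Q)`. -/
noncomputable def law (Q : Matrix S S ℝ) (t : ℝ) (x : S) : S → ℝ :=
  fun y => NormedSpace.exp (t • Q) x y

/-- `π` is a stationary distribution of the chain with generator `Q`. -/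
def IsStationary (Q : Matrix S S ℝ) (π : S → ℝ) : Prop :=
  (∀ x, 0 ≤ π x) ∧ ∑ x, π x = 1 ∧ ∀ y, ∑ x, π x * Q x y = 0

/-- The total variation distance `sup_A |μ(A) - ν(A)|`. -/
noncomputable def tv (μ ν : S → ℝ) : ℝ :=
  ⨆ A : Finset S, |∑ x ∈ A, μ x - ∑ x ∈ A, ν x|

/-- The mixing time `τ_x = inf {t ≥ 0 : ‖P_x(X_t ∈ ·) - π‖ ≤ 1/4}` of the starting state `x`. -/
noncomputable def mixAt (Q : Matrix S S ℝ) (π : S → ℝ) (x : S) : ℝ :=
  sInf {t : ℝ | 0 ≤ t ∧ tv (law Q t x) π ≤ 1 / 4}

open Classical in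
/-- `π {x : p x}`. -/
noncomputable def mass (π : S → ℝ) (p : S → Prop) : ℝ := ∑ x ∈ Finset.univ.filter p, π x

/-- `m` is a median of the random variable `f` under `π`. -/
def IsMedian (π : S → ℝ) (f : S → ℝ) (m : ℝ) : Prop :=
  1 / 2 ≤ mass π (fun x => f x ≤ m) ∧ 1 / 2 ≤ mass π (fun x => m ≤ f x)

/-- `lam` is the spectral gap: the smallest real part of a nonzero eigenvalue of `-Q`. -/
def IsGap (Q : Matrix S S ℝ) (lam : ℝ) : Prop :=
  IsLeast {r : ℝ | ∃ z : ℂ, z ≠ 0 ∧ z ∈ spectrum ℂ ((-Q).map (algebraMap ℝ ℂ)) ∧ z.re = r} lam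

end Defs

/-- The statement of Q1 (with `0 < ε < 1`). -/
def Q1 : Prop :=
  ∀ (S : ℕ → Type) [∀ n, Fintype (S n)] [∀ n, DecidableEq (S n)]
    (Q : ∀ n, Matrix (S n) (S n) ℝ) (π : ∀ n, S n → ℝ) (τ lam : ℕ → ℝ),
    (∀ n, IsGenerator (Q n) ∧ Irreducible (Q n) ∧ IsStationary (Q n) (π n) ∧
      IsMedian (π n) (mixAt (Q n) (π n)) (τ n) ∧ IsGap (Q n) (lam n)) →
    Tendsto (fun n => τ n / (1 / lam n)) atTop atTop →
    ∀ ε : ℝ, 0 < ε → ε < 1 →
      Tendsto (fun n => mass (π n) (fun x => 1 - ε < tv (law (Q n) ((1 - ε) * τ n) x) (π n)))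
        atTop (𝓝 1) ∧
      Tendsto (fun n => mass (π n) (fun x => tv (law (Q n) ((1 + ε) * τ n) x) (π n) < ε))
        atTop (𝓝 1)

/-! ### The walk on the hypercube with uniform jumps -/

section Cube

variable {N : ℕ}

/-- sign of a bit -/
def sg (b : Bool) : ℝ := if b then -1 else 1

/-- Walsh factor -/
def cc (b u : Bool) : ℝ := if b && u then -1 else 1

/-- flip the coordinate `i` -/
def flip (i : Fin N) (x : Fin N → Bool) : Fin N → Bool := Function.update x i (!x i)

/-- every coordinate flips at rate `1/2`, and at rate `ρ` the chain jumps to a uniform state -/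
noncomputable def QQ (N : ℕ) (ρ : ℝ) : Matrix (Fin N → Bool) (Fin N → Bool) ℝ := Matrix.of fun x y =>
  (∑ i, if y = flip i x then (1 / 2 : ℝ) else 0) - (if y = x then (N / 2 : ℝ) else 0) +
    ρ * ((1 / 2) ^ N - if y = x then 1 else 0)

/-- Walsh functions -/
def wf (x u : Fin N → Bool) : ℝ := ∏ i, cc (x i) (u i)

/-- Walsh matrix -/
def WW (N : ℕ) : Matrix (Fin N → Bool) (Fin N → Bool) ℝ := Matrix.of fun x u => wf x u

theorem WW_apply (x u : Fin N → Bool) : WW N x u = wf x u := rfl

/-- number of ones -/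
def wt (u : Fin N → Bool) : ℕ := (Finset.univ.filter (fun i => u i = true)).card

theorem cc_comm (a b : Bool) : cc a b = cc b a := by cases a <;> cases b <;> simp [cc]

theorem sg_sq (b : Bool) : sg b * sg b = 1 := by cases b <;> simp [sg]

theorem sum_pi_prod (g : Fin N → Bool → ℝ) : ∑ y : Fin N → Bool, ∏ i, g i (y i) = ∏ i, ∑ b, g i b := by
  rw [Finset.prod_univ_sum, Fintype.piFinset_univ]

theorem WW_mul : WW N * WW N = ((2:ℝ) ^ N) • (1 : Matrix (Fin N → Bool) (Fin N → Bool) ℝ) := by
  ext x z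
  rw [Matrix.mul_apply]
  simp only [WW_apply]
  have h : ∀ y : Fin N → Bool, wf x y * wf y z = ∏ i, (cc (x i) (y i) * cc (y i) (z i)) := by
    intro y; rw [Finset.prod_mul_distrib]; rfl
  simp_rw [h]
  rw [sum_pi_prod (fun i b => cc (x i) b * cc b (z i))]
  rw [Matrix.smul_apply, Matrix.one_apply]
  by_cases hxz : x = z
  · subst hxz
    have : ∀ i, ∑ b, cc (x i) b * cc b (x i) = 2 := by
      intro i
      cases x i
      · simp [cc]
        try norm_num
      · simp [cc]
        try norm_num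
    rw [Finset.prod_congr rfl (fun i _ => this i)]
    simp
  · obtain ⟨i, hi⟩ : ∃ i, x i ≠ z i := by
      by_contra hcon
      exact hxz (funext fun i => not_not.1 (fun h => hcon ⟨i, h⟩))
    rw [Finset.prod_eq_zero (Finset.mem_univ i)]
    · simp [hxz]
    · revert hi
      cases x i <;> cases z i <;> simp [cc]

/-- the Walsh coefficients of a product law -/
theorem char_exp (a : ℝ) (x u : Fin N → Bool) :
    ∑ y : Fin N → Bool, (∏ i, (1 + a * (sg (x i) * sg (y i))) / 2) * wf y u =
      a ^ wt u * wf x u := by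
  have h : ∀ y : Fin N → Bool, (∏ i, (1 + a * (sg (x i) * sg (y i))) / 2) * wf y u =
      ∏ i, ((1 + a * (sg (x i) * sg (y i))) / 2 * cc (y i) (u i)) := by
    intro y; rw [Finset.prod_mul_distrib]; rfl
  simp_rw [h]
  rw [sum_pi_prod (fun i b => (1 + a * (sg (x i) * sg b)) / 2 * cc b (u i))]
  have h2 : ∀ i, ∑ b, (1 + a * (sg (x i) * sg b)) / 2 * cc b (u i) =
      (if u i = true then a else 1) * cc (x i) (u i) := by
    intro i
    cases x i <;> cases u i <;> simp [cc, sg] <;> ring
  simp_rw [h2]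
  rw [Finset.prod_mul_distrib, Finset.prod_ite]
  simp only [Finset.prod_const, one_pow, mul_one]
  rfl

theorem sum_WW (u : Fin N → Bool) : ∑ y : Fin N → Bool, wf y u = 2 ^ N * 0 ^ wt u := by
  have h := char_exp 0 (fun _ => false) u
  have h1 : wf (fun _ => false) u = 1 := by
    unfold wf
    simp [cc]
  rw [h1] at h
  simp only [zero_mul, add_zero, mul_one] at h
  rw [← h, Finset.mul_sum]
  refine Finset.sum_congr rfl fun y _ => ?_
  rw [Finset.prod_const]
  simp only [Finset.card_univ, Fintype.card_fin]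
  rw [← mul_assoc, ← mul_pow]
  norm_num

theorem WW_flip (i : Fin N) (x u : Fin N → Bool) :
    wf (flip i x) u = (if u i = true then -1 else 1) * wf x u := by
  unfold wf
  rw [← Finset.mul_prod_erase Finset.univ _ (Finset.mem_univ i),
    ← Finset.mul_prod_erase Finset.univ (fun j => cc (x j) (u j)) (Finset.mem_univ i), ← mul_assoc]
  congr 1
  · unfold flip
    rw [Function.update_self]
    cases x i <;> cases u i <;> simp [cc]
  · refine Finset.prod_congr rfl fun j hj => ?_
    have : j ≠ i := (Finset.mem_erase.1 hj).1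
    unfold flip
    rw [Function.update_of_ne this]

/-- eigenvalues -/
noncomputable def dd (ρ : ℝ) (u : Fin N → Bool) : ℝ := -(wt u : ℝ) - ρ * (1 - 0 ^ wt u)

theorem sum_sign (u : Fin N → Bool) :
    ∑ i, (if u i = true then (-1:ℝ) else 1) = N - 2 * wt u := by
  have h : ∀ i, (if u i = true then (-1:ℝ) else 1) = 1 - 2 * (if u i = true then 1 else 0) := by
    intro i; split_ifs <;> norm_num
  simp_rw [h]
  rw [Finset.sum_sub_distrib, ← Finset.mul_sum]
  simp [wt]

theorem QW (ρ : ℝ) : QQ N ρ * WW N = WW N * Matrix.diagonal (dd ρ) := by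
  ext x u
  rw [Matrix.mul_apply, Matrix.mul_diagonal]
  simp only [WW_apply]
  have h : ∀ y, QQ N ρ x y * wf y u =
      (∑ i, (if y = flip i x then (1 / 2 : ℝ) * wf y u else 0)) -
        (if y = x then (N / 2 : ℝ) * wf y u else 0) +
        (ρ * (1 / 2) ^ N * wf y u - (if y = x then ρ * wf y u else 0)) := by
    intro y
    rw [QQ, Matrix.of_apply, add_mul, sub_mul, Finset.sum_mul]
    congr 1
    · congr 1
      · refine Finset.sum_congr rfl fun i _ => ?_
        split_ifs <;> ring
      · split_ifs <;> ring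
    · split_ifs <;> ring
  simp_rw [h]
  rw [Finset.sum_add_distrib, Finset.sum_sub_distrib, Finset.sum_sub_distrib, Finset.sum_comm]
  simp only [Finset.sum_ite_eq', Finset.mem_univ, if_true]
  have hs : ∑ y : Fin N → Bool, ρ * (1 / 2) ^ N * wf y u = ρ * (1 / 2) ^ N * (2 ^ N * 0 ^ wt u) := by
    rw [← Finset.mul_sum, sum_WW]
  rw [hs]
  simp_rw [WW_flip]
  have h3 : ∑ i, (1 / 2 : ℝ) * ((if u i = true then -1 else 1) * wf x u) =
      1 / 2 * (N - 2 * wt u) * wf x u := by
    rw [← sum_sign, ← Finset.mul_sum, ← Finset.sum_mul]; ring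
  rw [h3]
  have h4 : ρ * (1 / 2) ^ N * (2 ^ N * 0 ^ wt u) = ρ * 0 ^ wt u := by
    have : ((1:ℝ) / 2) ^ N * 2 ^ N = 1 := by rw [← mul_pow]; norm_num
    calc ρ * (1 / 2) ^ N * (2 ^ N * 0 ^ wt u) = ρ * ((1 / 2) ^ N * 2 ^ N) * 0 ^ wt u := by ring
      _ = _ := by rw [this]; ring
  rw [h4]
  unfold dd
  rcases Nat.eq_zero_or_pos (wt u) with h0 | h0
  · have hW : wf x u = 1 := by
      unfold wf
      refine Finset.prod_eq_one fun i _ => ?_
      have : u i = false := by
        by_contra hcon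
        have hi : i ∈ Finset.univ.filter (fun i => u i = true) := by simpa using hcon
        have := Finset.card_pos.2 ⟨i, hi⟩
        unfold wt at h0
        omega
      rw [this]; cases x i <;> simp [cc]
    rw [h0, hW]
    simp
    ring
  · rw [zero_pow (by omega)]
    ring

/-! ### The semigroup -/

/-- the transition probabilities -/
noncomputable def PP (N : ℕ) (ρ t : ℝ) : Matrix (Fin N → Bool) (Fin N → Bool) ℝ :=
  Matrix.of fun x y => Real.exp (-(ρ * t)) * (∏ i, (1 + Real.exp (-t) * (sg (x i) * sg (y i))) / 2) +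
    (1 - Real.exp (-(ρ * t))) * (1 / 2) ^ N

theorem PW (ρ t : ℝ) : PP N ρ t * WW N = WW N * Matrix.diagonal (fun u => Real.exp (t * dd ρ u)) := by
  ext x u
  rw [Matrix.mul_apply, Matrix.mul_diagonal]
  simp only [WW_apply]
  have h : ∀ y, PP N ρ t x y * wf y u = Real.exp (-(ρ * t)) *
      ((∏ i, (1 + Real.exp (-t) * (sg (x i) * sg (y i))) / 2) * wf y u) +
      (1 - Real.exp (-(ρ * t))) * (1 / 2) ^ N * wf y u := by
    intro y
    rw [PP, Matrix.of_apply]
    ring
  simp_rw [h]
  rw [Finset.sum_add_distrib, ← Finset.mul_sum, ← Finset.mul_sum, char_exp, sum_WW]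
  have h1 : ((1:ℝ) / 2) ^ N * 2 ^ N = 1 := by rw [← mul_pow]; norm_num
  have h2 : (1 - Real.exp (-(ρ * t))) * (1 / 2) ^ N * (2 ^ N * 0 ^ wt u) =
      (1 - Real.exp (-(ρ * t))) * 0 ^ wt u := by
    calc _ = (1 - Real.exp (-(ρ * t))) * ((1 / 2) ^ N * 2 ^ N) * 0 ^ wt u := by ring
      _ = _ := by rw [h1]; ring
  rw [h2]
  unfold dd
  rcases Nat.eq_zero_or_pos (wt u) with h0 | h0
  · have hW : wf x u = 1 := by
      unfold wf
      refine Finset.prod_eq_one fun i _ => ?_
      have : u i = false := by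
        by_contra hcon
        have hi : i ∈ Finset.univ.filter (fun i => u i = true) := by simpa using hcon
        have := Finset.card_pos.2 ⟨i, hi⟩
        unfold wt at h0
        omega
      rw [this]; cases x i <;> simp [cc]
    rw [h0, hW]
    simp
  · rw [zero_pow (by omega)]
    have h3 : Real.exp (-t) ^ wt u = Real.exp (-(t * wt u)) := by
      rw [← Real.exp_nat_mul]; congr 1; ring
    rw [h3]
    have h4 : Real.exp (t * (-(wt u : ℝ) - ρ * (1 - 0))) =
        Real.exp (-(ρ * t)) * Real.exp (-(t * wt u)) := by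
      rw [← Real.exp_add]; congr 1; ring
    rw [h4]; ring

/-- the Walsh matrix as a unit -/
noncomputable def WU (N : ℕ) : (Matrix (Fin N → Bool) (Fin N → Bool) ℝ)ˣ where
  val := WW N
  inv := ((1/2:ℝ) ^ N) • WW N
  val_inv := by
    rw [Matrix.mul_smul, WW_mul, smul_smul, ← mul_pow]
    norm_num
  inv_val := by
    rw [Matrix.smul_mul, WW_mul, smul_smul, ← mul_pow]
    norm_num

theorem WU_val : (WU N).val = WW N := rfl

theorem exp_QQ (ρ t : ℝ) : NormedSpace.exp (t • QQ N ρ) = PP N ρ t := by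
  have h1 : t • QQ N ρ = (WU N).val * Matrix.diagonal (t • dd ρ) * ((WU N)⁻¹).val := by
    rw [Units.eq_mul_inv_iff_mul_eq, WU_val, Matrix.smul_mul, QW]
    rw [Matrix.diagonal_smul, Matrix.mul_smul]
  have h2 : PP N ρ t = (WU N).val * Matrix.diagonal (fun u => Real.exp (t * dd ρ u)) *
      ((WU N)⁻¹).val := by
    rw [Units.eq_mul_inv_iff_mul_eq, WU_val, PW]
  rw [h1, Matrix.exp_units_conj, Matrix.exp_diagonal, h2]
  congr 2
  congr 1
  funext u
  rw [Pi.coe_exp, Real.exp_eq_exp_ℝ]
  rfl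

theorem law_QQ (ρ t : ℝ) (x y : Fin N → Bool) : law (QQ N ρ) t x y =
    Real.exp (-(ρ * t)) * (∏ i, (1 + Real.exp (-t) * (sg (x i) * sg (y i))) / 2) +
    (1 - Real.exp (-(ρ * t))) * (1 / 2) ^ N := by
  rw [law, exp_QQ]
  rfl

theorem spec (ρ : ℝ) : spectrum ℂ ((-(QQ N ρ)).map (algebraMap ℝ ℂ)) =
    Set.range (fun u : Fin N → Bool => ((-(dd ρ u) : ℝ) : ℂ)) := by
  have h1 : -(QQ N ρ) = (WU N).val * Matrix.diagonal (fun u => -(dd ρ u)) * ((WU N)⁻¹).val := by
    rw [Units.eq_mul_inv_iff_mul_eq, WU_val, Matrix.neg_mul, QW]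
    rw [← Matrix.mul_neg, Matrix.diagonal_neg]
  have h2 : (-(QQ N ρ)).map (algebraMap ℝ ℂ) =
      (Units.map ((algebraMap ℝ ℂ).mapMatrix : Matrix (Fin N → Bool) (Fin N → Bool) ℝ →+*
        Matrix (Fin N → Bool) (Fin N → Bool) ℂ).toMonoidHom (WU N)).val *
      Matrix.diagonal (fun u => ((-(dd ρ u) : ℝ) : ℂ)) *
      ((Units.map ((algebraMap ℝ ℂ).mapMatrix : Matrix (Fin N → Bool) (Fin N → Bool) ℝ →+*
        Matrix (Fin N → Bool) (Fin N → Bool) ℂ).toMonoidHom (WU N))⁻¹).val := by
    rw [h1]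
    change (algebraMap ℝ ℂ).mapMatrix _ = _
    rw [map_mul, map_mul]
    congr 1
    congr 1
    rw [RingHom.mapMatrix_apply, Matrix.diagonal_map (map_zero _)]
    rfl
  rw [h2, spectrum.units_conjugate, spectrum_diagonal]

theorem gap (hN : 1 ≤ N) {ρ : ℝ} (hρ : 0 ≤ ρ) : IsGap (QQ N ρ) (1 + ρ) := by
  unfold IsGap
  rw [spec]
  constructor
  · refine ⟨((1 + ρ : ℝ) : ℂ), ?_, ?_, by simp⟩
    · rw [Ne, Complex.ofReal_eq_zero]; linarith
    · refine ⟨fun i => decide (i = ⟨0, by omega⟩), ?_⟩
      have h : wt (fun i : Fin N => decide (i = ⟨0, by omega⟩)) = 1 := by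
        unfold wt
        simp only [decide_eq_true_eq, Finset.filter_eq', Finset.mem_univ, if_true,
          Finset.card_singleton]
      dsimp only
      rw [dd, h]
      congr 1
      simp
      ring
  · rintro r ⟨z, hz, ⟨u, rfl⟩, rfl⟩
    dsimp only at hz ⊢
    rw [Ne, Complex.ofReal_eq_zero] at hz
    rw [Complex.ofReal_re]
    unfold dd at hz ⊢
    rcases Nat.eq_zero_or_pos (wt u) with h0 | h0
    · rw [h0] at hz; simp at hz
    · rw [zero_pow (by omega)]
      have : (1:ℝ) ≤ wt u := by exact_mod_cast h0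
      linarith

/-! ### Total variation -/

/-- uniform law -/
noncomputable def unif (N : ℕ) : (Fin N → Bool) → ℝ := fun _ => (1 / 2) ^ N

/-- product law -/
noncomputable def pw (a : ℝ) (x y : Fin N → Bool) : ℝ := ∏ i, (1 + a * (sg (x i) * sg (y i))) / 2

theorem wt_zero : wt (fun _ : Fin N => false) = 0 := by simp [wt]

theorem wf_zero (y : Fin N → Bool) : wf y (fun _ => false) = 1 := by
  unfold wf
  simp [cc]

theorem wf_zero' (u : Fin N → Bool) : wf (fun _ => false) u = 1 := by
  unfold wf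
  simp [cc]

theorem pw_sum (a : ℝ) (x : Fin N → Bool) : ∑ y, pw a x y = 1 := by
  have h := char_exp a x (fun _ => false)
  simp only [wt_zero, pow_zero, wf_zero, mul_one] at h
  exact h

theorem pw_nonneg {a : ℝ} (h0 : 0 ≤ a) (h1 : a ≤ 1) (x y : Fin N → Bool) : 0 ≤ pw a x y := by
  unfold pw
  refine Finset.prod_nonneg fun i _ => ?_
  have : -1 ≤ sg (x i) * sg (y i) := by
    cases x i <;> cases y i <;> simp [sg]
  nlinarith

theorem pw_zero (x y : Fin N → Bool) : pw 0 x y = unif N y := by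
  unfold pw unif
  simp

theorem unif_sum : ∑ y, unif N y = 1 := by
  rw [← pw_sum (N := N) 0 (fun _ => false)]
  simp_rw [pw_zero]

theorem diff_eq (ρ t : ℝ) (x : Fin N → Bool) (A : Finset (Fin N → Bool)) :
    ∑ y ∈ A, law (QQ N ρ) t x y - ∑ y ∈ A, unif N y =
      Real.exp (-(ρ * t)) * (∑ y ∈ A, pw (Real.exp (-t)) x y - ∑ y ∈ A, unif N y) := by
  rw [← Finset.sum_sub_distrib, ← Finset.sum_sub_distrib, Finset.mul_sum]
  refine Finset.sum_congr rfl fun y _ => ?_
  rw [law_QQ]
  unfold pw unif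
  ring

theorem bdd {S : Type} [Fintype S] (μ ν : S → ℝ) :
    BddAbove (Set.range fun A : Finset S => |∑ x ∈ A, μ x - ∑ x ∈ A, ν x|) := by
  classical
  exact (Set.finite_range _).bddAbove

theorem tv_le {t ρ : ℝ} (ht : 0 ≤ t) (x : Fin N → Bool) :
    tv (law (QQ N ρ) t x) (unif N) ≤ Real.exp (-(ρ * t)) := by
  unfold tv
  refine ciSup_le fun A => ?_
  rw [diff_eq, abs_mul, abs_of_pos (Real.exp_pos _)]
  refine mul_le_of_le_one_right (Real.exp_pos _).le ?_
  have ha1 : Real.exp (-t) ≤ 1 := by rw [Real.exp_le_one_iff]; linarith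
  have h1 : 0 ≤ ∑ y ∈ A, pw (Real.exp (-t)) x y :=
    Finset.sum_nonneg fun y _ => pw_nonneg (Real.exp_pos _).le ha1 x y
  have h2 : ∑ y ∈ A, pw (Real.exp (-t)) x y ≤ 1 := by
    rw [← pw_sum (Real.exp (-t)) x]
    exact Finset.sum_le_univ_sum_of_nonneg fun y => pw_nonneg (Real.exp_pos _).le ha1 x y
  have hu : ∀ y, 0 ≤ unif N y := fun y => by unfold unif; positivity
  have h3 : 0 ≤ ∑ y ∈ A, unif N y := Finset.sum_nonneg fun y _ => hu y
  have h4 : ∑ y ∈ A, unif N y ≤ 1 := by
    rw [← unif_sum (N := N)]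
    exact Finset.sum_le_univ_sum_of_nonneg fun y => hu y
  rw [abs_le]
  constructor <;> linarith

/-- sum of the signs -/
def ff (y : Fin N → Bool) : ℝ := ∑ i, sg (y i)

theorem wf_single (y : Fin N → Bool) (i : Fin N) : wf y (fun k => decide (k = i)) = sg (y i) := by
  unfold wf
  rw [Finset.prod_eq_single i]
  · cases y i <;> simp [cc, sg]
  · intro k _ hk
    simp [cc, hk]
  · intro h; exact absurd (Finset.mem_univ i) h

theorem wf_xor (y u v : Fin N → Bool) : wf y (fun k => xor (u k) (v k)) = wf y u * wf y v := by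
  unfold wf
  rw [← Finset.prod_mul_distrib]
  refine Finset.prod_congr rfl fun k _ => ?_
  change cc (y k) (xor (u k) (v k)) = cc (y k) (u k) * cc (y k) (v k)
  generalize y k = a
  generalize u k = b
  generalize v k = c
  cases a <;> cases b <;> cases c <;> simp [cc]

theorem wt_single (i : Fin N) : wt (fun k => decide (k = i)) = 1 := by
  unfold wt
  simp only [decide_eq_true_eq, Finset.filter_eq', Finset.mem_univ, if_true,
    Finset.card_singleton]

theorem wt_xor (i j : Fin N) : wt (fun k => xor (decide (k = i)) (decide (k = j))) =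
    if i = j then 0 else 2 := by
  unfold wt
  split_ifs with h
  · subst h; simp
  · have : (Finset.univ.filter (fun k => xor (decide (k = i)) (decide (k = j)) = true)) = {i, j} := by
      ext k
      simp only [Finset.mem_filter, Finset.mem_univ, true_and, Finset.mem_insert,
        Finset.mem_singleton]
      by_cases h1 : k = i
      · subst h1; simp [h]
      · by_cases h2 : k = j
        · subst h2; simp [h1]
        · simp [h1, h2]
    rw [this, Finset.card_pair h]

theorem E_f (a : ℝ) : ∑ y : Fin N → Bool, pw a (fun _ => false) y * ff y = N * a := by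
  have h : ∀ y : Fin N → Bool, pw a (fun _ => false) y * ff y =
      ∑ i, pw a (fun _ => false) y * wf y (fun k => decide (k = i)) := by
    intro y
    rw [ff, Finset.mul_sum]
    refine Finset.sum_congr rfl fun i _ => ?_
    rw [wf_single]
  simp_rw [h]
  rw [Finset.sum_comm]
  have h2 : ∀ i : Fin N, ∑ y : Fin N → Bool, pw a (fun _ => false) y *
      wf y (fun k => decide (k = i)) = a := by
    intro i
    have := char_exp a (fun _ => false) (fun k => decide (k = i))
    rw [wt_single, wf_zero', pow_one, mul_one] at this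
    exact this
  simp_rw [h2]
  simp

theorem E_f2 (a : ℝ) : ∑ y : Fin N → Bool, pw a (fun _ => false) y * ff y ^ 2 =
    N * (N * a ^ 2 + (1 - a ^ 2)) := by
  have h : ∀ y : Fin N → Bool, pw a (fun _ => false) y * ff y ^ 2 =
      ∑ i, ∑ j, pw a (fun _ => false) y *
        wf y (fun k => xor (decide (k = i)) (decide (k = j))) := by
    intro y
    rw [pow_two, ff, Finset.sum_mul_sum, Finset.mul_sum]
    refine Finset.sum_congr rfl fun i _ => ?_
    rw [Finset.mul_sum]
    refine Finset.sum_congr rfl fun j _ => ?_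
    rw [wf_xor, wf_single, wf_single]
  simp_rw [h]
  rw [Finset.sum_comm]
  have h1 : ∀ i : Fin N, ∑ y : Fin N → Bool, ∑ j, pw a (fun _ => false) y *
        wf y (fun k => xor (decide (k = i)) (decide (k = j))) = N * a ^ 2 + (1 - a ^ 2) := by
    intro i
    rw [Finset.sum_comm]
    have h2 : ∀ j : Fin N, ∑ y : Fin N → Bool, pw a (fun _ => false) y *
        wf y (fun k => xor (decide (k = i)) (decide (k = j))) =
        a ^ 2 + if i = j then (1 - a ^ 2) else 0 := by
      intro j
      have := char_exp a (fun _ => false) (fun k => xor (decide (k = i)) (decide (k = j)))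
      rw [wt_xor, wf_zero', mul_one] at this
      refine Eq.trans this ?_
      split_ifs <;> ring
    simp_rw [h2]
    rw [Finset.sum_add_distrib]
    simp
  simp_rw [h1]
  simp
  ring

theorem tv_ge (hN : 1 ≤ N) {t ρ : ℝ} (ht : 0 ≤ t) :
    Real.exp (-(ρ * t)) * (1 - 8 * Real.exp (2 * t) / N) ≤
      tv (law (QQ N ρ) t (fun _ => false)) (unif N) := by
  set a := Real.exp (-t) with ha
  have ha0 : 0 < a := Real.exp_pos _
  have ha1 : a ≤ 1 := by rw [ha, Real.exp_le_one_iff]; linarith
  have hNr : (1:ℝ) ≤ N := by exact_mod_cast hN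
  have hea : Real.exp (2 * t) * a ^ 2 = 1 := by
    rw [ha, ← Real.exp_nat_mul, ← Real.exp_add]
    simp
  have hpos : ∀ y, 0 ≤ pw a (fun _ => false) y := fun y : Fin N → Bool => pw_nonneg ha0.le ha1 _ y
  have hpos0 : ∀ y, 0 ≤ pw 0 (fun _ => false) y :=
    fun y : Fin N → Bool => pw_nonneg le_rfl zero_le_one _ y
  set A : Finset (Fin N → Bool) := Finset.univ.filter (fun y => N * a / 2 ≤ ff y) with hA
  -- the uniform mass of A
  have hq : 0 < (N * a / 2) ^ 2 := by positivity
  have h1 : (∑ y ∈ A, unif N y) * (N * a / 2) ^ 2 ≤ N := by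
    have e := E_f2 (N := N) 0
    have : (∑ y ∈ A, unif N y) * (N * a / 2) ^ 2 ≤
        ∑ y : Fin N → Bool, pw 0 (fun _ => false) y * ff y ^ 2 := by
      rw [Finset.sum_mul]
      refine (Finset.sum_le_sum (f := fun y => unif N y * (N * a / 2) ^ 2)
        (g := fun y => pw 0 (fun _ => false) y * ff y ^ 2) ?_).trans ?_
      · intro y hy
        rw [hA, Finset.mem_filter] at hy
        rw [pw_zero]
        refine mul_le_mul_of_nonneg_left ?_ (by unfold unif; positivity)
        exact pow_le_pow_left₀ (by positivity) hy.2 2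
      · exact Finset.sum_le_univ_sum_of_nonneg fun y => mul_nonneg (hpos0 y) (sq_nonneg _)
    rw [e] at this
    simpa using this
  -- the mass of the complement of A at time t
  have h2 : (∑ y ∈ Finset.univ.filter (fun y : Fin N → Bool => ¬ (N * a / 2 ≤ ff y)),
      pw a (fun _ => false) y) * (N * a / 2) ^ 2 ≤ N := by
    have e : ∑ y : Fin N → Bool, pw a (fun _ => false) y * (ff y - N * a) ^ 2 =
        N * (1 - a ^ 2) := by
      have : ∀ y : Fin N → Bool, pw a (fun _ => false) y * (ff y - N * a) ^ 2 =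
          pw a (fun _ => false) y * ff y ^ 2 - 2 * (N * a) * (pw a (fun _ => false) y * ff y) +
          (N * a) ^ 2 * pw a (fun _ => false) y := by intro y; ring
      simp_rw [this]
      rw [Finset.sum_add_distrib, Finset.sum_sub_distrib, ← Finset.mul_sum, ← Finset.mul_sum,
        E_f, E_f2, pw_sum]
      ring
    have : (∑ y ∈ Finset.univ.filter (fun y : Fin N → Bool => ¬ (N * a / 2 ≤ ff y)),
        pw a (fun _ => false) y) * (N * a / 2) ^ 2 ≤
        ∑ y : Fin N → Bool, pw a (fun _ => false) y * (ff y - N * a) ^ 2 := by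
      rw [Finset.sum_mul]
      refine (Finset.sum_le_sum (f := fun y => pw a (fun _ => false) y * (N * a / 2) ^ 2)
        (g := fun y => pw a (fun _ => false) y * (ff y - N * a) ^ 2) ?_).trans ?_
      · intro y hy
        rw [Finset.mem_filter, not_le] at hy
        refine mul_le_mul_of_nonneg_left ?_ (hpos y)
        have h5 : 0 < N * a / 2 := by positivity
        nlinarith [hy.2]
      · exact Finset.sum_le_univ_sum_of_nonneg fun y => mul_nonneg (hpos y) (sq_nonneg _)
    rw [e] at this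
    refine this.trans ?_
    nlinarith [sq_nonneg a]
  have h3 : (4 * Real.exp (2 * t) / N) * (N * a / 2) ^ 2 = N := by
    have : (4 * Real.exp (2 * t) / N) * (N * a / 2) ^ 2 = (Real.exp (2 * t) * a ^ 2) * N := by
      field_simp
      ring
    rw [this, hea, one_mul]
  have h4 : ∑ y ∈ A, unif N y ≤ 4 * Real.exp (2 * t) / N := by
    refine le_of_mul_le_mul_right (h1.trans h3.ge) hq
  have h5 : ∑ y ∈ Finset.univ.filter (fun y : Fin N → Bool => ¬ (N * a / 2 ≤ ff y)),
      pw a (fun _ => false) y ≤ 4 * Real.exp (2 * t) / N := by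
    refine le_of_mul_le_mul_right (h2.trans h3.ge) hq
  have h6 : ∑ y ∈ A, pw a (fun _ => false) y +
      ∑ y ∈ Finset.univ.filter (fun y : Fin N → Bool => ¬ (N * a / 2 ≤ ff y)),
      pw a (fun _ => false) y = 1 := by
    rw [hA, Finset.sum_filter_add_sum_filter_not, pw_sum]
  have h7 : 1 - 8 * Real.exp (2 * t) / N ≤ ∑ y ∈ A, pw a (fun _ => false) y - ∑ y ∈ A, unif N y := by
    have : 8 * Real.exp (2 * t) / N = 4 * Real.exp (2 * t) / N + 4 * Real.exp (2 * t) / N := by ring
    linarith
  refine le_trans ?_ (le_ciSup (bdd _ _) A)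
  rw [diff_eq, abs_mul, abs_of_pos (Real.exp_pos _)]
  exact mul_le_mul_of_nonneg_left (h7.trans (le_abs_self _)) (Real.exp_pos _).le

/-! ### Elementary properties of the chain -/

theorem flip_flip (i : Fin N) (x : Fin N → Bool) : flip i (flip i x) = x := by
  unfold flip
  simp

theorem QQ_symm (ρ : ℝ) (x y : Fin N → Bool) : QQ N ρ x y = QQ N ρ y x := by
  have h : ∀ i, (y = flip i x) = (x = flip i y) := by
    intro i
    apply propext
    constructor
    · rintro rfl; rw [flip_flip]
    · rintro rfl; rw [flip_flip]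
  rw [QQ, Matrix.of_apply, Matrix.of_apply]
  simp only [h, eq_comm (a := y) (b := x)]

theorem QQ_row (ρ : ℝ) (x : Fin N → Bool) : ∑ y, QQ N ρ x y = 0 := by
  have h := congrFun (congrFun (QW (N := N) ρ) x) (fun _ => false)
  rw [Matrix.mul_apply, Matrix.mul_diagonal] at h
  simp only [WW_apply, wf_zero, mul_one] at h
  rw [h]
  simp [dd, wt_zero]

theorem QQ_pos {ρ : ℝ} (hρ : 0 < ρ) {x y : Fin N → Bool} (h : x ≠ y) : 0 < QQ N ρ x y := by
  rw [QQ, Matrix.of_apply, if_neg h.symm, if_neg h.symm]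
  have h1 : 0 ≤ ∑ i : Fin N, if y = flip i x then (1 / 2 : ℝ) else 0 :=
    Finset.sum_nonneg fun i _ => by split_ifs <;> norm_num
  have h2 : 0 < ρ * ((1 / 2) ^ N - 0) := by rw [sub_zero]; positivity
  linarith

theorem gen {ρ : ℝ} (hρ : 0 < ρ) : IsGenerator (QQ N ρ) :=
  ⟨fun _ _ h => (QQ_pos hρ h).le, QQ_row ρ⟩

theorem irr {ρ : ℝ} (hρ : 0 < ρ) : Irreducible (QQ N ρ) := by
  intro x y
  by_cases h : x = y
  · rw [h]
  · exact Relation.ReflTransGen.single ⟨h, QQ_pos hρ h⟩

theorem stat (ρ : ℝ) : IsStationary (QQ N ρ) (unif N) := by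
  refine ⟨fun x => by unfold unif; positivity, unif_sum, fun y => ?_⟩
  unfold unif
  rw [← Finset.mul_sum]
  simp_rw [fun x => QQ_symm ρ x y]
  rw [QQ_row, mul_zero]

/-- translations of the cube -/
def tl (a : Fin N → Bool) : Equiv.Perm (Fin N → Bool) where
  toFun z := fun i => xor (z i) (a i)
  invFun z := fun i => xor (z i) (a i)
  left_inv z := by funext i; simp
  right_inv z := by funext i; simp

theorem tl_flip (a : Fin N → Bool) (i : Fin N) (x : Fin N → Bool) :
    flip i (tl a x) = tl a (flip i x) := by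
  funext j
  unfold flip
  by_cases h : j = i
  · subst h
    simp [tl]
  · simp [tl, Function.update_of_ne h]

theorem QQ_tl (ρ : ℝ) (a x y : Fin N → Bool) : QQ N ρ (tl a x) (tl a y) = QQ N ρ x y := by
  rw [QQ, Matrix.of_apply, Matrix.of_apply]
  simp only [tl_flip, (tl a).injective.eq_iff]

theorem law_tl (ρ t : ℝ) (a x y : Fin N → Bool) :
    law (QQ N ρ) t (tl a x) (tl a y) = law (QQ N ρ) t x y := by
  rw [law_QQ, law_QQ]
  congr 2
  refine Finset.prod_congr rfl fun i _ => ?_
  have : sg (tl a x i) * sg (tl a y i) = sg (x i) * sg (y i) := by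
    simp only [tl, Equiv.coe_fn_mk]
    generalize x i = b
    generalize y i = c
    generalize a i = d
    cases b <;> cases c <;> cases d <;> simp [sg]
  rw [this]

theorem tl_to (x y : Fin N → Bool) : tl (fun i => xor (x i) (y i)) x = y := by
  funext i
  simp [tl]

theorem tv_tl_le (ρ t : ℝ) (x y : Fin N → Bool) :
    tv (law (QQ N ρ) t x) (unif N) ≤ tv (law (QQ N ρ) t y) (unif N) := by
  rw [tv]
  refine ciSup_le fun A => ?_
  set σ := tl (fun i => xor (x i) (y i)) with hσ
  have h1 : ∑ z ∈ A, law (QQ N ρ) t x z = ∑ z ∈ A.map σ.toEmbedding, law (QQ N ρ) t y z := by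
    rw [Finset.sum_map]
    refine Finset.sum_congr rfl fun z _ => ?_
    rw [← law_tl ρ t (fun i => xor (x i) (y i)) x z, tl_to]
    rfl
  have h2 : ∑ z ∈ A, unif N z = ∑ z ∈ A.map σ.toEmbedding, unif N z := by
    rw [Finset.sum_map]
    rfl
  rw [h1, h2]
  exact le_ciSup (bdd (law (QQ N ρ) t y) (unif N)) (A.map σ.toEmbedding)

theorem mixAt_const (ρ : ℝ) (x y : Fin N → Bool) :
    mixAt (QQ N ρ) (unif N) x = mixAt (QQ N ρ) (unif N) y := by
  unfold mixAt
  congr 1
  ext t
  have h := le_antisymm (tv_tl_le ρ t x y) (tv_tl_le ρ t y x)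
  constructor
  · rintro ⟨h1, h2⟩
    exact ⟨h1, h.symm.trans_le h2⟩
  · rintro ⟨h1, h2⟩
    exact ⟨h1, h.trans_le h2⟩

theorem median (ρ : ℝ) (m : ℝ) : IsMedian (unif N) (mixAt (QQ N ρ) (unif N)) m ↔
    m = mixAt (QQ N ρ) (unif N) (fun _ => false) := by
  set c := mixAt (QQ N ρ) (unif N) (fun _ => false) with hc
  have hf : mixAt (QQ N ρ) (unif N) = fun _ => c := by
    funext x
    exact mixAt_const ρ x _
  rw [hf]
  unfold IsMedian mass
  constructor
  · rintro ⟨h1, h2⟩
    by_contra hne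
    rcases lt_or_gt_of_ne hne with h | h
    · rw [Finset.filter_false_of_mem (fun x _ => not_le.2 h), Finset.sum_empty] at h1
      norm_num at h1
    · rw [Finset.filter_false_of_mem (fun x _ => not_le.2 h), Finset.sum_empty] at h2
      norm_num at h2
  · rintro rfl
    simp only [le_refl, Finset.filter_true, unif_sum]
    norm_num

end Cube

/-- the jump rate -/
noncomputable def rate (n : ℕ) : ℝ := 4 / Real.log (n + 2)

theorem log_pos' (n : ℕ) : 0 < Real.log ((n:ℝ) + 2) := by
  apply Real.log_pos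
  have : (0:ℝ) ≤ n := Nat.cast_nonneg n
  linarith

theorem rate_pos (n : ℕ) : 0 < rate n := div_pos (by norm_num) (log_pos' n)

/-- the mixing time -/
noncomputable def tau (n : ℕ) : ℝ := mixAt (QQ (n + 2) (rate n)) (unif (n + 2)) (fun _ => false)

theorem tau_ge (n : ℕ) (hn : 1022 ≤ n) : Real.log ((n:ℝ) + 2) / 4 ≤ tau n := by
  unfold tau mixAt
  apply le_csInf
  · refine ⟨2 / rate n, (div_pos two_pos (rate_pos n)).le, ?_⟩
    refine (tv_le (div_pos two_pos (rate_pos n)).le _).trans ?_
    rw [mul_div_cancel₀ _ (rate_pos n).ne', Real.exp_neg]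
    have h1 : (4:ℝ) ≤ Real.exp 2 := by
      have := Real.quadratic_le_exp_of_nonneg (x := 2) (by norm_num)
      norm_num at this
      linarith
    calc (Real.exp 2)⁻¹ ≤ 4⁻¹ := inv_anti₀ (by norm_num) h1
      _ = 1 / 4 := by norm_num
  · rintro t ⟨ht, h⟩
    by_contra hlt
    rw [not_le] at hlt
    have hl := log_pos' n
    have h1 := tv_ge (N := n + 2) (by omega) (ρ := rate n) ht
    have h2 : rate n * t < 1 := by
      unfold rate
      rw [div_mul_eq_mul_div, div_lt_one hl]
      linarith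
    have h3 : Real.exp (-1) ≤ Real.exp (-(rate n * t)) := Real.exp_le_exp.2 (by linarith)
    have hn2 : (1024:ℝ) ≤ (n:ℝ) + 2 := by
      have : (1022:ℝ) ≤ n := by exact_mod_cast hn
      linarith
    have h4 : Real.exp (2 * t) ≤ Real.sqrt ((n:ℝ) + 2) := by
      have : Real.exp (2 * t) ≤ Real.exp (Real.log ((n:ℝ) + 2) * (1 / 2)) :=
        Real.exp_le_exp.2 (by linarith)
      refine this.trans (le_of_eq ?_)
      rw [Real.sqrt_eq_rpow, Real.rpow_def_of_pos (by linarith)]
    have h5 : 8 * Real.exp (2 * t) / ((n + 2 : ℕ) : ℝ) ≤ 1 / 4 := by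
      push_cast
      rw [div_le_div_iff₀ (by linarith) (by norm_num)]
      have h6 : (32:ℝ) ≤ Real.sqrt ((n:ℝ) + 2) := by
        apply Real.le_sqrt_of_sq_le
        linarith
      have h7 := Real.mul_self_sqrt (show (0:ℝ) ≤ (n:ℝ) + 2 by linarith)
      nlinarith
    have h8 : (0.36:ℝ) ≤ Real.exp (-1) := by
      rw [Real.exp_neg]
      have := Real.exp_one_lt_d9
      rw [le_inv_comm₀ (by norm_num) (Real.exp_pos _)]
      norm_num
      linarith
    have h9 : (0.36:ℝ) * (3 / 4) ≤ Real.exp (-(rate n * t)) *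
        (1 - 8 * Real.exp (2 * t) / ((n + 2 : ℕ) : ℝ)) :=
      mul_le_mul (h8.trans h3) (by linarith) (by norm_num) (Real.exp_pos _).le
    have h10 := h9.trans (h1.trans h)
    norm_num at h10

theorem small {ε : ℝ} (h0 : 0 < ε) (h1 : ε ≤ 2 / 5) (n : ℕ) (hn : 1022 ≤ n)
    (x : Fin (n + 2) → Bool) :
    tv (law (QQ (n + 2) (rate n)) ((1 - ε) * tau n) x) (unif (n + 2)) ≤ 1 - ε := by
  have h2 := tau_ge n hn
  have hl := log_pos' n
  have h3 : 0 ≤ (1 - ε) * tau n := mul_nonneg (by linarith) (by linarith)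
  refine (tv_le h3 x).trans ?_
  have h4 : 1 - ε ≤ rate n * ((1 - ε) * tau n) := by
    have : 1 ≤ rate n * tau n := by
      unfold rate
      rw [div_mul_eq_mul_div, le_div_iff₀ hl]
      linarith
    nlinarith
  have h5 : Real.exp (-(rate n * ((1 - ε) * tau n))) ≤ Real.exp (-(1 - ε)) :=
    Real.exp_le_exp.2 (by linarith)
  refine h5.trans ?_
  rw [Real.exp_neg]
  have h6 := Real.quadratic_le_exp_of_nonneg (x := 1 - ε) (by linarith)
  rw [inv_le_comm₀ (Real.exp_pos _) (by linarith)]
  refine le_trans ?_ h6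
  rw [inv_le_comm₀ (by linarith) (by nlinarith)]
  rw [inv_le_comm₀ (by nlinarith) (by linarith), ← one_div, div_le_iff₀ (by linarith)]
  nlinarith [sq_nonneg (1 - ε)]

/-- **Q1 is false**, even for reversible chains all states of which are equivalent under
automorphisms: there are finite irreducible reversible chains with generators `Q n`, stationary
distributions `π n`, spectral gaps `lam n` and a group of automorphisms acting transitively on the
states (so that `τ_x` does not depend on `x` and its only median is this value `τ n`) such that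
`τ n / τ_2 → ∞`, but for every `ε ∈ (0, 2/5]` and all large `n` no state `x` at all satisfies
`‖P_x(X_{(1-ε)τ} ∈ ·) - π‖ > 1 - ε`. -/
theorem result :
    (∃ (S : ℕ → Type) (_ : ∀ n, Fintype (S n)) (_ : ∀ n, DecidableEq (S n))
      (Q : ∀ n, Matrix (S n) (S n) ℝ) (π : ∀ n, S n → ℝ) (τ lam : ℕ → ℝ),
      (∀ n, IsGenerator (Q n) ∧ Irreducible (Q n) ∧ IsStationary (Q n) (π n) ∧
        (∀ x y, π n x * Q n x y = π n y * Q n y x) ∧
        (∀ x y, ∃ σ : Equiv.Perm (S n), σ x = y ∧ ∀ a b, Q n (σ a) (σ b) = Q n a b) ∧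
        (∀ x, mixAt (Q n) (π n) x = τ n) ∧
        (∀ m, IsMedian (π n) (mixAt (Q n) (π n)) m ↔ m = τ n) ∧ IsGap (Q n) (lam n)) ∧
      Tendsto (fun n => τ n / (1 / lam n)) atTop atTop ∧
      ∀ ε : ℝ, 0 < ε → ε ≤ 2 / 5 → ∀ᶠ n in atTop, ∀ x,
        tv (law (Q n) ((1 - ε) * τ n) x) (π n) ≤ 1 - ε) ∧
    ¬ Q1 := by
  have key : (∀ n, IsGenerator (QQ (n + 2) (rate n)) ∧ Irreducible (QQ (n + 2) (rate n)) ∧
        IsStationary (QQ (n + 2) (rate n)) (unif (n + 2)) ∧
        (∀ x y, unif (n + 2) x * QQ (n + 2) (rate n) x y = unif (n + 2) y * QQ (n + 2) (rate n) y x) ∧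
        (∀ x y, ∃ σ : Equiv.Perm (Fin (n + 2) → Bool), σ x = y ∧
          ∀ a b, QQ (n + 2) (rate n) (σ a) (σ b) = QQ (n + 2) (rate n) a b) ∧
        (∀ x, mixAt (QQ (n + 2) (rate n)) (unif (n + 2)) x = tau n) ∧
        (∀ m, IsMedian (unif (n + 2)) (mixAt (QQ (n + 2) (rate n)) (unif (n + 2))) m ↔
          m = tau n) ∧ IsGap (QQ (n + 2) (rate n)) (1 + rate n)) := by
    intro n
    refine ⟨gen (rate_pos n), irr (rate_pos n), stat _, fun x y => ?_, fun x y => ?_,
      fun x => mixAt_const _ x _, median _, gap (by omega) (rate_pos n).le⟩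
    · rw [QQ_symm]; rfl
    · exact ⟨tl _, tl_to x y, QQ_tl _ _⟩
  have hlog : Tendsto (fun n : ℕ => Real.log ((n:ℝ) + 2) / 4) atTop atTop := by
    refine Tendsto.atTop_div_const (by norm_num) ?_
    refine Real.tendsto_log_atTop.comp ?_
    exact tendsto_atTop_add_const_right _ _ tendsto_natCast_atTop_atTop
  have hlim : Tendsto (fun n => tau n / (1 / (1 + rate n))) atTop atTop := by
    refine tendsto_atTop_mono' _ ?_ hlog
    filter_upwards [eventually_ge_atTop 1022] with n hn
    have h1 := tau_ge n hn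
    have h2 := rate_pos n
    have h3 := log_pos' n
    rw [div_div_eq_mul_div, div_one]
    nlinarith
  refine ⟨⟨fun n => Fin (n + 2) → Bool, fun n => inferInstance, fun n => inferInstance,
    fun n => QQ (n + 2) (rate n), fun n => unif (n + 2), tau, fun n => 1 + rate n, key, hlim, ?_⟩, ?_⟩
  · intro ε h0 h1
    filter_upwards [eventually_ge_atTop 1022] with n hn x
    exact small h0 h1 n hn x
  · intro hQ
    have h := (hQ (fun n => Fin (n + 2) → Bool) (fun n => QQ (n + 2) (rate n))
      (fun n => unif (n + 2)) tau (fun n => 1 + rate n)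
      (fun n => ⟨(key n).1, (key n).2.1, (key n).2.2.1, ((key n).2.2.2.2.2.2.1 _).2 rfl,
        (key n).2.2.2.2.2.2.2⟩) hlim (2 / 5) (by norm_num) (by norm_num)).1
    have h0 : Tendsto (fun n : ℕ => mass (unif (n + 2)) (fun x => 1 - 2 / 5 <
        tv (law (QQ (n + 2) (rate n)) ((1 - 2 / 5) * tau n) x) (unif (n + 2)))) atTop (𝓝 0) := by
      refine tendsto_const_nhds.congr' ?_
      filter_upwards [eventually_ge_atTop 1022] with n hn
      unfold mass
      rw [Finset.filter_false_of_mem (fun x _ => not_lt.2 (small (by norm_num) le_rfl n hn x)),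
        Finset.sum_empty]
    exact one_ne_zero (tendsto_nhds_unique h h0)

end Pool.Agent.Results.MP_d1aba8_pr.NoTypicalCutoff
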